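import Mathlib
import Pool.Agent.Helper72.WNDefs
import Pool.Agent.Helper72.WNFinal

set_option autoImplicit false

namespace Pool.Agent.Results.MP_768068_al.LocallyNilpotentRadical

open Pool.Agent.Helper72.WN

universe u

/-- Over every nonzero commutative ring there are weakly Noetherian associative (even unital),
alternative and Jordan algebras whose locally nilpotent radical is not nilpotent. -/
theorem result (Φ : Type u) [CommRing Φ] [Nontrivial Φ] :
    (∃ (A : Type u) (_ : Ring A) (_ : Algebra Φ A), IsBad Φ A) ∧
    (∃ (A : Type u) (_ : NonUnitalNonAssocRing A) (_ : Module Φ A) (_ : IsScalarTower Φ A A)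
      (_ : SMulCommClass Φ A A),
      ((∀ x y : A, (x * x) * y = x * (x * y)) ∧ (∀ x y : A, (y * x) * x = y * (x * x))) ∧
        IsBad Φ A) ∧
    (∃ (A : Type u) (_ : NonUnitalNonAssocRing A) (_ : Module Φ A) (_ : IsScalarTower Φ A A)
      (_ : SMulCommClass Φ A A),
      ((∀ x y : A, x * y = y * x) ∧ (∀ x y : A, ((x * x) * y) * x = (x * x) * (y * x))) ∧
        IsBad Φ A) :=
  main Φ

end Pool.Agent.Results.MP_768068_al.LocallyNilpotentRadical
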